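import Pool.Agent.N194.DLF.Main

set_option autoImplicit false

/-!
# Varieties connected by fibrations with dilations are Brody-special

Let `X` be a complex projective variety with the function field `K`. A rational fibration `X ⇢ B` is
given by the subfield `L = ℂ(B)` of `K`; then `K` is the function field of the generic fibre `F`, a
variety over `L`. We suppose that finitely many fibrations `L 1, …, L m` are given whose generic
fibres, of arbitrary dimensions, belong to one of the following two classes.

* `Homothetic`: the vector fields on `F` over `L` are combinations of *dilatable* ones. A vector
  field `v` on `X` is dilatable if there are a variety `Y` over `K` with a smooth `K`-point `e`, a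
  rational self-map of `Y` over `K` which is regular at `e`, fixes `e` and has there the
  differential `lam · id`, `|lam| > 1`, and a rational map `π` from `Y` to `X` which maps `e` to the
  generic point of `X` and a tangent vector at `e` to `v`. The main examples are the torsors `F`
  under a commutative algebraic group over `L`, for instance under an abelian variety of any
  dimension (`Y` is `F` over `K`, `e` the tautological point, `y ↦ e + n (y - e)` with `n ≥ 2` the
  self-map; no section or multisection is needed), their quotients by finite groups (generalised
  Kummer varieties), and homogeneous spaces of groups with such self-maps; see `sQuot` and `sHomog`
  in `Pool/Agent/N194/DL/All.lean` for the formal versions of these examples.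
* `Sweepable`: after the extension of scalars from `L` to `K`, where it gets a rational point, `F`
  becomes dominated by the last member of a tower of varieties over `K` in which each generic fibre
  is a quadric or a variety with a dilated rational point. For instance `F` becomes unirational over
  `K` (cubic hypersurfaces of dimension at least two, intersections of two quadrics, …), without
  having a point over `L`.

Let `E` be the field of the elements of `K` which are algebraic over all `L i`, the function field
of the base of the quotient of `X` by the fibrations. The theorem is the *relative criterion*:
there is a form `G`, not zero on `X`, such that as soon as there is one entire curve `f` in `X` with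
Zariski dense image in the base which is not contained in `{G = 0}`, there is one with Zariski dense
image in `X`. (The image in the base is Zariski dense if and only if every function in `E` is a
quotient of two forms whose denominator does not vanish identically along `f`, that is, if the
functions in `E` make sense as meromorphic functions along `f`; they may have poles.) In other words:
if `X` is not Brody-special, then all entire curves in `X` with Zariski dense image in the base lie
in one proper closed subset of `X`. In particular, if `E = ℂ`, that is, if general points of `X` are
connected by chains of fibres, then `X` and all projective varieties dominated by `X` are
Brody-special.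

The varieties `X` with `E = ℂ` are special in the sense of Campana: a variety over `ℂ` with a dilated
point is the image of a nondegenerate meromorphic map from `ℂ ^ n` (linearization of the self-map),
hence special, so that through a general point of `X` there pass special subvarieties in all
dilatable directions; the core map contracts them (similarly for sweepable fibrations). So this is
the implication from (i) to (ii) of Campana's conjecture for a large class of varieties. It contains,
for instance, the projective irreducible hyperkähler manifolds with two different (rational)
Lagrangian fibrations and the Calabi-Yau varieties with two abelian fibrations without common
invariants; the relative criterion applies to varieties of all Kodaira dimensions less than the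
dimension: a projective variety with one fibration over a curve `B` in torsors under abelian
varieties is Brody-special as soon as the curves of geometric genus at most one which dominate `B`
are not all contained in `{G = 0}`, for instance if they are Zariski dense. (These consequences are
not part of the formal statement.)

Known before: rationally connected varieties (Campana, Winkelmann), subvarieties of abelian
varieties, varieties of maximal Albanese dimension (Yamanoi), surfaces except some `K3` surfaces
(Buzzard, Lu), and, in the starting files of this folder, fibrations in curves of genus at most one.
For hyperkähler manifolds with two Lagrangian fibrations Kamenova, Lu and Verbitsky proved that the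
Kobayashi pseudometric vanishes. Fixed points of self-maps are used in arithmetic by Amerik,
Bogomolov and Rovinsky.
In contrast with curves, the fibres of higher dimension through the points of a given entire curve
can be degenerate (endomorphism rings can jump), so that the multiples of one section do not suffice;
this is what the dilations are for.

The proof. Points of `X` over the field `Mer` of meromorphic functions on `ℂ` are entire curves.
Among the points over `Mer` which specialize to a given one let `P` be one with minimal vanishing
ideal. At `P` a dilated point specializes to a dilated point over `Mer`. A tangent vector `w` at a
dilated point integrates to a formal curve `η` with `η(lam τ) = μ(η(τ))`; its coefficients grow at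
most exponentially, it converges for small `τ`, and it can be continued by its functional equation:
for `τ = κ w(z)` with an entire function `w` and all small `κ` one gets new points over `Mer`. For
general `κ` and transcendental `w` such a point satisfies no other algebraic relations than the
formal curve. By minimality the closure of `P` is stable under the vector field. The fibres which
are only dominated by towers are swept out by generic points of the towers (the theorem of Bertini
and Noether is used to see that these specialize to all points of the fibre); for the quadrics one
needs the theorem of Tsen for the field `Mer`, which is proved by approximation on discs. So the
closure of `P` is stable under the Lie algebra generated by the vector fields along the fibres,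
which contains all vector fields over `E` (an argument with exponentials of vector fields and
descent, from the starting files), and `P` is generic.

Parts of the proof were written by helpers 738, 73, 459, 866, 424, 27, 721, 391, 644, 475, 72, 891,
711, 767, 216, 901, 264, 814, 592, 55, 342, 488, 383, 768, 140, 570, 588, 519, 935, 692, 170, 558,
693, 645, 723, 344, 196, 364, 835, 75, 82, 80, 278, 262, 521, 456, 713, 413; blueprint: helper194.
-/

namespace Pool.Agent.Results.MP_1209e6_ag.DilationFibrations

open MvPolynomial Pool.Agent.W599.CB Pool.Agent.N194 Pool.Agent.N194.DLF

/-- Let `X = projVar ξ` be a projective variety with the function field `K`, and let `L i` be
finitely many rational fibrations of `X` (subfields of `K`) which are homothetic or sweepable. Let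
`E` be the field of the elements of `K` which are algebraic over all `L i`. Then there is a form `G`
which does not vanish identically on `X` such that `X` is Brody-special if and only if there is a
holomorphic map `f : ℂ → X` such that `G(f)` is not identically zero and every `a ∈ E` is a quotient
of two forms whose denominator is not identically zero along `f` (that is, the image of `f` in the
base with the function field `E` is Zariski dense). In particular, if `E = ℂ` then all projective
varieties dominated by `X` (their generic points are the nonzero vectors `ξ'` over `K`), in
particular `X`, are Brody-special. -/
theorem result {K : Type} [Field K] [Algebra ℂ K] {M m : ℕ} (ξ : Fin (M + 1) → K) (hξ : ξ ≠ 0)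
    (hgen : IntermediateField.adjoin ℂ
      (Set.range fun i : Fin (M + 1) × Fin (M + 1) => ξ i.1 / ξ i.2) = ⊤)
    (L : Fin m → IntermediateField ℂ K)
    (hL : ∀ i, Homothetic (L i) ∨ Sweepable (L i))
    (E : IntermediateField ℂ K) (hE : ∀ a, a ∈ E ↔ ∀ i, IsAlgebraic (L i) a) :
    (∃ (D : ℕ) (G : MvPolynomial (Fin (M + 1)) ℂ), G.IsHomogeneous D ∧ aeval ξ G ≠ 0 ∧
      (IsBrodySpecial (projVar ξ) ↔ ∃ f : ℂ → PN M, IsHolomorphicCurve f ∧
        (∀ z, f z ∈ projVar ξ) ∧ (∃ z, eval (f z).rep G ≠ 0) ∧
        ∀ a ∈ E, ∃ (d : ℕ) (G₁ G₂ : MvPolynomial (Fin (M + 1)) ℂ), G₁.IsHomogeneous d ∧
          G₂.IsHomogeneous d ∧ a * aeval ξ G₂ = aeval ξ G₁ ∧ ∃ z, eval (f z).rep G₂ ≠ 0)) ∧
    (E = ⊥ → ∀ (M' : ℕ) (ξ' : Fin (M' + 1) → K), ξ' ≠ 0 → IsBrodySpecial (projVar ξ')) := by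
  have hfin : Algebra.EssFiniteType ℂ K := by
    rw [← IntermediateField.fg_top_iff, ← hgen]
    exact IntermediateField.fg_adjoin_of_finite (Set.finite_range _)
  have hL' : ∀ i, DL.Homothetic (L i) ∨ DL.Sweepable2 (L i) := fun i =>
    (hL i).imp (homothetic_iff (L i)).1 Sweepable.toDL
  have hG := DL.sFib3 K m L E hL' hE
  refine ⟨DL.sRel3 K M ξ hξ hgen E hG, ?_⟩
  rintro rfl M' ξ' hξ'
  exact DL.sAbs3 K hG M' ξ' hξ'

end Pool.Agent.Results.MP_1209e6_ag.DilationFibrations
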