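import Pool.Agent.N115.JS.Spc

/-!
MP_1209e6_ag, Q1 (Campana): special and Brody-special varieties and multi-valued maps to the
varieties of the vectors whose `m`-th powers, for instance whose squares, are the values of a
polynomial of degree at most `n` at given constants; images of bounded degree of the closed
subvarieties of these varieties.

`Corr ℂ L a n r` (`Pool/Agent/N115/JS/Cor.lean`): a rational map with at most `r` values (with
arbitrary branching) from the variety `M` with function field `L` to the variety `X_m` of the points
`x` of `P^N` such that `x i ^ m = P (a i)` for a polynomial `P` of degree at most `n`, given by a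
point `y` of `X_m` over an extension `E` of `L` of degree at most `r`; its polynomial is written as
`q ^ m * H`, where `H` has no `m`-fold factors (this is always possible). `Special` is Campana's
definition by Bogomolov sheaves. The parts were written by the helpers 115, 966, 42, 701, 664, 459,
170, 234, 768, 603, 849, 530.
-/

set_option autoImplicit false

namespace Pool.Agent.Results.MP_1209e6_ag.MultivaluedSpecial

open Pool.Agent.W602.GT (coords BrodySpecial Special)
open Pool.Agent.Y216.SV (InLinearSpace)
open Pool.Agent.TH710.SP (IsLinear)
open Pool.Agent.W619.TW (IsUnirational)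
open Pool.Agent.N115.JS

/-- Let `a 0, ..., a N` be distinct complex numbers, `n, r ≥ 1` and
`4 r n + (r n + r (r - 1) + 1) ^ 2 < 2 (N + 1)`. Let `X_m ⊆ P^N`, `m ≥ 2`, be the variety of the
points whose `m`-th powers are the values at the `a i` of a polynomial of degree at most `n`.

(1) Let `M` be a projective variety (of any dimension) which is special, or Brody-special, that is
there is an entire curve in `M` with Zariski-dense image. Then the image of each rational map with at
most `r` values from `M` to `X_m` is contained in a linear subspace of dimension at most `n / m`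
which is contained in `X_m`.

(2) Let `Z` be a closed subvariety of `X_m` of dimension `w` with `n < (w + 1) m`, with function
field `K` and generic point `y`, and let `Z ⇢ W` be a dominant rational map of degree at most `r` to
a projective variety, with function field `L` and generic point `x`. The following are equivalent:
`W` is special; `W` is Brody-special; `W` is unirational; `Z` is a linear subspace. -/
theorem result {N n r : ℕ} (hn : 1 ≤ n) (hr : 1 ≤ r)
    (hN : 4 * (r * n) + (r * n + r * (r - 1) + 1) ^ 2 < 2 * (N + 1))
    (a : Fin (N + 1) → ℂ) (ha : Function.Injective a) :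
    (∀ (L : Type) [Field L] [Algebra ℂ L] (D M : ℕ) (ξ : Fin (M + 1) → L), ξ ≠ 0 →
      coords ℂ ξ = ⊤ → Algebra.trdeg ℂ L = D →
      (Special ℂ L D (fun _ => False) ∨ BrodySpecial (∅ : Set (Fin (M + 1))) ξ) →
      ∀ f : Corr ℂ L a n r, ∃ e, e * f.m ≤ n ∧ InLinearSpace ℂ a n f.m e f.y) ∧
    (∀ (K L : Type) [Field K] [Field L] [Algebra ℂ K] [Algebra ℂ L] [Algebra L K]
      [IsScalarTower ℂ L K] [FiniteDimensional L K], Module.finrank L K ≤ r →
      ∀ (m w : ℕ), 2 ≤ m → n < (w + 1) * m →
      ∀ y : Fin (N + 1) → K, y ≠ 0 → coords ℂ y = ⊤ → Algebra.trdeg ℂ K = w →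
      (∃ P : Polynomial K, P.natDegree ≤ n ∧
        ∀ i, y i ^ m = P.eval (algebraMap ℂ K (a i))) →
      ∀ (M : ℕ) (x : Fin (M + 1) → L), x ≠ 0 → coords ℂ x = ⊤ →
      [Special ℂ L w (fun _ => False), BrodySpecial (∅ : Set (Fin (M + 1))) x,
        IsUnirational ℂ L w, IsLinear ℂ y].TFAE) := by
  have hbd := bound_le hr hn hN
  have hnN : n ≤ N := by
    have h1 : 1 * (1 * n) ≤ (r * (r - 1) + 4) * (r * n) :=
      Nat.mul_le_mul (by omega) (Nat.mul_le_mul_right _ hr)
    omega
  refine ⟨fun L _ _ D M ξ hξ hgen hD h f => f.linear hnN ha
    (linear_of_special ha hr hn hN hξ hgen hD h f), ?_⟩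
  intro K L _ _ _ _ _ _ _ hfr m w hm hnw y hy hyg htr hval M x hx hxg
  exact images_tfae ha hr hn hN hm hnw hfr hy hyg htr hval hx hxg

end Pool.Agent.Results.MP_1209e6_ag.MultivaluedSpecial
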