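import Pool.Agent.N194.DLF.Main

set_option autoImplicit false

/-!
# Towers of quadric fibrations and of fibrations with dilated sections

Let `X ⇢ B` be a dominant rational map of complex projective varieties, `F = ℂ(B)`, `K = ℂ(X)`, which
is dominated over `B` by (or is itself) a tower of rational fibrations `X = X_r ⇢ ... ⇢ X_0 = B`, such
that the generic fibre of each step is

* a quadric of positive dimension (for instance a conic), *without any condition on rational
  points*, or
* a variety with a *dilated* rational point, that is, with a rational section along which there is a
  rational self-map over the base with the differential `lam · id`, `|lam| > 1` in the directions of
  the fibre. Examples: abelian schemes with their zero sections (Jacobian fibrations), all connected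
  commutative algebraic groups over the function field, varieties which are rational over the
  function field of the base; and, by subextensions, the quotients of all these by finite groups and
  all unirational varieties.

Then `X` is Brody-special if and only if `B` is.

Campana's conjecture predicts this: the general fibres are special and the steps have no multiple
fibres in codimension one (they have sections, or their fibres are rationally connected), so the
tower is special if and only if `B` is, and `X` lies between them; so the conjecture for such `X` is
reduced to the conjecture for the base `B`. For instance: Jacobian fibrations, and towers of them
and of quadric bundles, over abelian varieties, over surfaces which are known to be Brody-special, or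
over the varieties of the hand-in `DilationFibrations`, are Brody-special; the conjecture for a
uniruled variety whose maximal rationally connected fibration has relative dimension one (it is a
conic bundle) is equivalent to the one for the base of this fibration. Near this: the field of
meromorphic functions on `ℂ` has trivial Brauer groups (Guralnick), rationally connected fibrations
over curves (Campana, Winkelmann).

The proof. A Zariski dense entire curve in `B` is an embedding of `F` into the field `Mer` of
meromorphic functions on `ℂ`. The theorem of Tsen holds for conics over `Mer`: for nonzero entire
functions `a`, `b` there are entire functions `x`, `y`, `w`, not all zero, with `a x² + b y² = w²`. On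
a disc this follows from the theorem of Tsen over `ℂ(z)`, since there `a` and `b` are polynomials times
squares; a solution on a disc can be approximated by solutions on larger discs (by the rational
parametrisation of the conic, Taylor polynomials, and interpolation at the zeros of the factors
which have to be divided out), and the limit is a solution. At a dilated point the vector fields
integrate to formal curves which satisfy a functional equation, and their values at transcendental
entire functions give generic points (as in the hand-in `DilationFibrations`). So every embedding of
`F` into `Mer` extends to `K`.

Parts of the proof were written by helpers 75, 82, 80, 278, 262, 521, 456, 713, 413, 73, 723, 645, 344,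
170, 558, 693, 835 and by the authors of the parts of `DilationFibrations`; blueprint: helper194.
-/

namespace Pool.Agent.Results.MP_1209e6_ag.TowersWithQuadrics

open MvPolynomial Pool.Agent.W599.CB Pool.Agent.N194 Pool.Agent.N194.DLF

/-- Let `B = projVar η` and `X = projVar ξ` be projective varieties with the function fields `F` and
`K ⊇ F`, and suppose that `K` is contained in the function field of a tower of varieties over `F`
whose steps are varieties with dilated rational points or quadrics of positive dimension
(`Reach F K`). Then `X` is Brody-special if and only if `B` is Brody-special. -/
theorem result {F K : Type} [Field F] [Field K] [Algebra ℂ F] [Algebra ℂ K] [Algebra F K]
    [IsScalarTower ℂ F K] {M M' : ℕ} (η : Fin (M + 1) → F) (ξ : Fin (M' + 1) → K)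
    (hη : η ≠ 0) (hξ : ξ ≠ 0)
    (hF : IntermediateField.adjoin ℂ
      (Set.range fun i : Fin (M + 1) × Fin (M + 1) => η i.1 / η i.2) = ⊤)
    (hK : IntermediateField.adjoin ℂ
      (Set.range fun i : Fin (M' + 1) × Fin (M' + 1) => ξ i.1 / ξ i.2) = ⊤)
    (h : Reach F K) : IsBrodySpecial (projVar ξ) ↔ IsBrodySpecial (projVar η) :=
  DL.sTower F K M M' η ξ hη hξ hF hK h.toDL

end Pool.Agent.Results.MP_1209e6_ag.TowersWithQuadrics
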